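import Pool.Agent.Lib.MP_355270_an.CZ.Stm

open Filter Topology
open scoped ENNReal

namespace Pool.Agent.Lib.MP_355270_an.CZ

universe u

/-- An injective map of the index set and uniformly bounded operators give an operator between
`c_0`-sums. -/
theorem zabsorb_map {𝕜 : Type} [RCLike 𝕜]
    {G : ℕ → Type u} [∀ k, NormedAddCommGroup (G k)] [∀ k, NormedSpace 𝕜 (G k)]
    {A : ℕ → Type u} [∀ k, NormedAddCommGroup (A k)] [∀ k, NormedSpace 𝕜 (A k)]
    (ι : ℕ → ℕ) (hι : Function.Injective ι) (S : ∀ n, G (ι n) ≃L[𝕜] A n) (C : ℝ) (hC : 0 ≤ C)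
    (hS : ∀ n x, ‖S n x‖ ≤ C * ‖x‖) :
    ∃ L : c0sum 𝕜 G →L[𝕜] c0sum 𝕜 A, ∀ g n, (L g : lp A ∞) n = S n ((g : lp G ∞) (ι n)) := by
  have hten : ∀ g : c0sum 𝕜 G, Tendsto (fun n => ‖S n ((g : lp G ∞) (ι n))‖) atTop (𝓝 0) := by
    intro g
    have h1 : Tendsto (fun n => ‖(g : lp G ∞) n‖) atTop (𝓝 0) := g.2
    have h2 : Tendsto ι atTop atTop := by
      have := hι.tendsto_cofinite
      rwa [Nat.cofinite_eq_atTop] at this
    have h3 : Tendsto (fun n => C * ‖(g : lp G ∞) (ι n)‖) atTop (𝓝 (C * 0)) :=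
      (h1.comp h2).const_mul C
    rw [mul_zero] at h3
    exact squeeze_zero (fun n => norm_nonneg _) (fun n => hS n _) h3
  have hmem : ∀ g : c0sum 𝕜 G, Memℓp (fun n => S n ((g : lp G ∞) (ι n))) ∞ := fun g =>
    memℓp_infty (hten g).bddAbove_range
  let L : c0sum 𝕜 G →ₗ[𝕜] c0sum 𝕜 A :=
    { toFun := fun g => ⟨⟨fun n => S n ((g : lp G ∞) (ι n)), hmem g⟩, hten g⟩
      map_add' := fun a b => by
        refine Subtype.ext (lp.ext ?_)
        funext n
        show S n ((a : lp G ∞) (ι n) + (b : lp G ∞) (ι n)) = _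
        rw [map_add]
        rfl
      map_smul' := fun c a => by
        refine Subtype.ext (lp.ext ?_)
        funext n
        show S n (c • (a : lp G ∞) (ι n)) = _
        rw [map_smul]
        rfl }
  refine ⟨L.mkContinuous C ?_, fun g n => rfl⟩
  intro g
  show ‖((L g : c0sum 𝕜 A) : lp A ∞)‖ ≤ C * ‖(g : lp G ∞)‖
  refine lp.norm_le_of_forall_le (by positivity) (fun n => ?_)
  refine (hS n _).trans (mul_le_mul_of_nonneg_left ?_ hC)
  exact lp.norm_apply_le_norm ENNReal.top_ne_zero (g : lp G ∞) (ι n)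

/-- Convergence to `0` on a disjoint union. -/
theorem zabsorb_sum (f : ℕ ⊕ ℕ → ℝ) (h1 : Tendsto (fun n => f (Sum.inl n)) atTop (𝓝 0))
    (h2 : Tendsto (fun n => f (Sum.inr n)) atTop (𝓝 0)) : Tendsto f cofinite (𝓝 0) := by
  rw [← Nat.cofinite_eq_atTop] at h1 h2
  intro s hs
  have a1 := h1 hs
  have a2 := h2 hs
  rw [Filter.mem_map, Filter.mem_cofinite] at a1 a2 ⊢
  have : (f ⁻¹' s)ᶜ ⊆ Sum.inl '' ((fun n => f (Sum.inl n)) ⁻¹' s)ᶜ ∪
      Sum.inr '' ((fun n => f (Sum.inr n)) ⁻¹' s)ᶜ := by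
    rintro (n | n) hn
    · exact Or.inl ⟨n, hn, rfl⟩
    · exact Or.inr ⟨n, hn, rfl⟩
  exact ((a1.image _).union (a2.image _)).subset this

theorem p_zabsorb (h1 : S_zcomplete.{u}) : S_zabsorb.{u} := by
  intro 𝕜 _ F G _ _ _ _ _ _ C hC hF hG
  classical
  haveI : CompleteSpace (c0sum 𝕜 F) := h1 𝕜 F
  haveI : CompleteSpace (c0sum 𝕜 G) := h1 𝕜 G
  have hC0 : 0 ≤ C := by linarith
  obtain ⟨h, hb, hi1, hi2⟩ := exists_matching 𝕜 C hC hF hG
  choose T hT hTs using hi1
  choose T' hT' hTs' using hi2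
  have hinl : Function.Injective (fun n => h (Sum.inl n)) := hb.1.comp Sum.inl_injective
  have hinr : Function.Injective (fun n => h (Sum.inr n)) := hb.1.comp Sum.inr_injective
  obtain ⟨L1, hL1⟩ := zabsorb_map (𝕜 := 𝕜) (G := G) (A := F) _ hinl (fun n => (T n).symm) C hC0 hTs
  obtain ⟨L2, hL2⟩ := zabsorb_map (𝕜 := 𝕜) (G := G) (A := G) _ hinr (fun n => (T' n).symm) C hC0
    hTs'
  let Lc : c0sum 𝕜 G →L[𝕜] c0sum 𝕜 F × c0sum 𝕜 G := L1.prod L2
  have hinj : LinearMap.ker Lc.toLinearMap = ⊥ := by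
    rw [LinearMap.ker_eq_bot']
    intro g hg
    have hg1 : L1 g = 0 := congrArg Prod.fst hg
    have hg2 : L2 g = 0 := congrArg Prod.snd hg
    refine Subtype.ext (lp.ext ?_)
    funext j
    obtain ⟨i, rfl⟩ := hb.2 j
    show (g : lp G ∞) (h i) = 0
    cases i with
    | inl n =>
      have : (T n).symm ((g : lp G ∞) (h (Sum.inl n))) = 0 := by
        rw [← hL1, hg1]
        rfl
      simpa using this
    | inr n =>
      have : (T' n).symm ((g : lp G ∞) (h (Sum.inr n))) = 0 := by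
        rw [← hL2, hg2]
        rfl
      simpa using this
  have hsurj : LinearMap.range Lc.toLinearMap = ⊤ := by
    rw [eq_top_iff]
    rintro ⟨f, g⟩ _
    let σ : ℕ ⊕ ℕ ≃ ℕ := Equiv.ofBijective h hb
    let k : ∀ i : ℕ ⊕ ℕ, G (σ i) := fun i => match i with
      | Sum.inl n => T n ((f : lp F ∞) n)
      | Sum.inr n => T' n ((g : lp G ∞) n)
    let q : ∀ j, G j := Equiv.piCongrLeft G σ k
    have hq : ∀ i, q (h i) = k i := fun i => Equiv.piCongrLeft_apply_apply G σ k i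
    have hkt : Tendsto (fun i => ‖k i‖) cofinite (𝓝 0) := by
      refine zabsorb_sum _ ?_ ?_
      · have h3 : Tendsto (fun n => C * ‖(f : lp F ∞) n‖) atTop (𝓝 (C * 0)) :=
          Tendsto.const_mul C f.2
        rw [mul_zero] at h3
        exact squeeze_zero (fun n => norm_nonneg _) (fun n => hT n _) h3
      · have h3 : Tendsto (fun n => C * ‖(g : lp G ∞) n‖) atTop (𝓝 (C * 0)) :=
          Tendsto.const_mul C g.2
        rw [mul_zero] at h3
        exact squeeze_zero (fun n => norm_nonneg _) (fun n => hT' n _) h3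
    have hqt : Tendsto (fun j => ‖q j‖) atTop (𝓝 0) := by
      rw [← Nat.cofinite_eq_atTop]
      have h4 := hkt.comp σ.symm.injective.tendsto_cofinite
      refine h4.congr (fun j => ?_)
      have h5 : ‖q (σ (σ.symm j))‖ = ‖k (σ.symm j)‖ := congrArg norm (hq (σ.symm j))
      show ‖k (σ.symm j)‖ = ‖q j‖
      rw [← h5, σ.apply_symm_apply j]
    refine ⟨⟨⟨q, memℓp_infty hqt.bddAbove_range⟩, hqt⟩, ?_⟩
    refine Prod.ext (Subtype.ext (lp.ext ?_)) (Subtype.ext (lp.ext ?_))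
    · funext n
      refine (hL1 _ n).trans ?_
      show (T n).symm (q (h (Sum.inl n))) = (f : lp F ∞) n
      rw [hq]
      show (T n).symm (T n ((f : lp F ∞) n)) = (f : lp F ∞) n
      simp
    · funext n
      refine (hL2 _ n).trans ?_
      show (T' n).symm (q (h (Sum.inr n))) = (g : lp G ∞) n
      rw [hq]
      show (T' n).symm (T' n ((g : lp G ∞) n)) = (g : lp G ∞) n
      simp
  exact ⟨(ContinuousLinearEquiv.ofBijective Lc hinj hsurj).symm⟩

end Pool.Agent.Lib.MP_355270_an.CZ
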