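import Pool.Agent.Lib.MP_355270_an.CZ.Stm

open Filter Topology
open scoped ENNReal

namespace Pool.Agent.Lib.MP_355270_an.CZ

universe u

theorem p_zassemble (h1 : S_zops.{u}) (h2 : S_zcomplete.{u}) (h3 : S_zfdd.{u}) (h4 : S_zabsorb.{u}) : S_zassemble.{u} := by
  classical
  intro 𝕜 _ G _ _ g0 g1 g2 F _ _ _ E _ _ _ q hq1 hq2 hq3
  have hGc : ∀ n, CompleteSpace (G n) := fun n => FiniteDimensional.complete 𝕜 (G n)
  have hFc : ∀ n, CompleteSpace (F n) := fun n => FiniteDimensional.complete 𝕜 (F n)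
  obtain ⟨-, -, -, -, -, -, o7, -, -, o10, -, -, o13, -, o15⟩ := h1 𝕜 G
  have hcG : CompleteSpace (c0sum 𝕜 G) := h2 𝕜 G
  have hcF : CompleteSpace (c0sum 𝕜 F) := h2 𝕜 F
  let P : ℕ → ((E × c0sum 𝕜 F) × c0sum 𝕜 G →L[𝕜] (E × c0sum 𝕜 F) × c0sum 𝕜 G) := fun n =>
    match n with
    | 0 => 0
    | m + 1 => (q m).prodMap (tauz 𝕜 G m)
  have hPs : ∀ m z, P (m + 1) z = (q m z.1, tauz 𝕜 G m z.2) := fun m z => rfl
  have hP0 : P 0 = 0 := rfl
  have hcomp : ∀ n m x, P n (P m x) = P (min n m) x := by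
    intro n m x
    cases n with
    | zero => rw [hP0, Nat.zero_min, hP0]; rfl
    | succ n =>
      cases m with
      | zero => rw [Nat.min_zero, hP0]; simp
      | succ m =>
        rw [Nat.add_min_add_right, hPs, hPs, hPs]
        refine Prod.ext ?_ ?_
        · exact hq1 n m x.1
        · exact o7 n m x.2
  have hPfin : ∀ n, FiniteDimensional 𝕜 (P n).toLinearMap.range := by
    intro n
    cases n with
    | zero =>
      rw [hP0]
      have : (0 : (E × c0sum 𝕜 F) × c0sum 𝕜 G →L[𝕜]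
          (E × c0sum 𝕜 F) × c0sum 𝕜 G).toLinearMap.range = ⊥ := by
        ext x; simp
      rw [this]
      infer_instance
    | succ n =>
      have f1 := hq2 n
      have f2 : FiniteDimensional 𝕜 (tauz 𝕜 G n).toLinearMap.range := o15 g0 n
      have hle : (P (n + 1)).toLinearMap.range ≤
          (q n).toLinearMap.range.map (LinearMap.inl 𝕜 (E × c0sum 𝕜 F) (c0sum 𝕜 G)) ⊔
          (tauz 𝕜 G n).toLinearMap.range.map
            (LinearMap.inr 𝕜 (E × c0sum 𝕜 F) (c0sum 𝕜 G)) := by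
        rintro _ ⟨z, rfl⟩
        have hz : (P (n + 1)).toLinearMap z =
            LinearMap.inl 𝕜 (E × c0sum 𝕜 F) (c0sum 𝕜 G) (q n z.1) +
            LinearMap.inr 𝕜 (E × c0sum 𝕜 F) (c0sum 𝕜 G) (tauz 𝕜 G n z.2) := by
          refine Prod.ext ?_ ?_
          · show q n z.1 = q n z.1 + 0
            rw [add_zero]
          · show tauz 𝕜 G n z.2 = 0 + tauz 𝕜 G n z.2
            rw [zero_add]
        rw [hz]
        exact Submodule.add_mem_sup (Submodule.mem_map_of_mem ⟨_, rfl⟩)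
          (Submodule.mem_map_of_mem ⟨_, rfl⟩)
      exact Submodule.finiteDimensional_of_le hle
  have hPt : ∀ x, Tendsto (fun n => P n x) atTop (𝓝 x) := by
    intro x
    rw [← tendsto_add_atTop_iff_nat 1]
    exact (hq3 x.1).prodMk_nhds (o13 x.2)
  have hcand := fun (A : Type u) [NormedAddCommGroup A] [NormedSpace 𝕜 A] [FiniteDimensional 𝕜 A] =>
    infinite_candidates g1 g2 A
  have hinf : ¬ FiniteDimensional 𝕜 ((E × c0sum 𝕜 F) × c0sum 𝕜 G) := by
    intro hfd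
    have hfdG : FiniteDimensional 𝕜 (c0sum 𝕜 G) :=
      FiniteDimensional.of_injective
        (LinearMap.inr 𝕜 (E × c0sum 𝕜 F) (c0sum 𝕜 G)) LinearMap.inr_injective
    set d := Module.finrank 𝕜 (c0sum 𝕜 G) with hd
    obtain ⟨n, T, -⟩ := g1 (ULift.{u} (Fin (d + 1) → 𝕜)) 1 one_pos
    have e1 : Module.finrank 𝕜 (G n) = d + 1 := by
      rw [← T.toLinearEquiv.finrank_eq, (ULift.moduleEquiv (R := 𝕜)
        (M := Fin (d + 1) → 𝕜)).finrank_eq, Module.finrank_fin_fun]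
    have e2 : Module.finrank 𝕜 (G n) ≤ d := by
      refine LinearMap.finrank_le_finrank_of_injective
        (f := (sgz 𝕜 G n).toLinearMap) ?_
      intro x y hxy
      have h5 : sgz 𝕜 G n x = sgz 𝕜 G n y := hxy
      have h6 := congrArg (evz 𝕜 G n) h5
      rwa [o10, o10] at h6
    omega
  obtain ⟨H, i1, i2, i3, hbasis⟩ := h3 𝕜 ((E × c0sum 𝕜 F) × c0sum 𝕜 G) P hP0 hcomp hPfin hPt hinf
  have hHc : ∀ n, CompleteSpace (H n) := fun n => FiniteDimensional.complete 𝕜 (H n)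
  -- absorption
  obtain ⟨e1⟩ := h4 𝕜 F G 2 one_le_two (fun n => hcand (F n)) (fun n => hcand (G n))
  obtain ⟨e2⟩ := h4 𝕜 H G 2 one_le_two (fun n => hcand (H n)) (fun n => hcand (G n))
  let a1 : ((E × c0sum 𝕜 F) × c0sum 𝕜 G) ≃L[𝕜] E × c0sum 𝕜 G :=
    (ContinuousLinearEquiv.prodAssoc 𝕜 E (c0sum 𝕜 F) (c0sum 𝕜 G)).trans
      ((ContinuousLinearEquiv.refl 𝕜 E).prodCongr e1)
  let a2 : (((E × c0sum 𝕜 F) × c0sum 𝕜 G) × c0sum 𝕜 H) ≃L[𝕜] E × c0sum 𝕜 G :=
    ((a1.prodCongr (ContinuousLinearEquiv.refl 𝕜 (c0sum 𝕜 H))).trans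
      (ContinuousLinearEquiv.prodAssoc 𝕜 E (c0sum 𝕜 G) (c0sum 𝕜 H))).trans
      ((ContinuousLinearEquiv.refl 𝕜 E).prodCongr
        ((ContinuousLinearEquiv.prodComm 𝕜 (c0sum 𝕜 G) (c0sum 𝕜 H)).trans e2))
  exact basis_transport a2 hbasis

end Pool.Agent.Lib.MP_355270_an.CZ
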