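import Pool.Agent.Lib.MP_355270_an.CZ.Stm

open Filter Topology
open scoped ENNReal

namespace Pool.Agent.Lib.MP_355270_an.CZ

universe u

theorem p_zcomplete : S_zcomplete.{u} := by
  sorry

end Pool.Agent.Lib.MP_355270_an.CZ
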