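import Pool.Agent.Lib.MP_355270_an.CZ.Stm

open Filter Topology
open scoped ENNReal

namespace Pool.Agent.Lib.MP_355270_an.CZ

universe u

theorem p_zfdd (h1 : S_zops.{u}) : S_zfdd.{u} := by
  intro 𝕜 _ X _ _ _ P hP0 hcomp hfin ht hinf
  set D : ℕ → X →L[𝕜] X := fun n => P (n + 1) - P n with hD
  have hDapp : ∀ n x, D n x = P (n + 1) x - P n x := fun n x => rfl
  set V : ℕ → Submodule 𝕜 X := fun n => (D n).toLinearMap.range with hV
  have hVfin : ∀ n, FiniteDimensional 𝕜 (V n) := by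
    intro n
    have := hfin n
    have := hfin (n + 1)
    have hle : V n ≤ (P (n + 1)).toLinearMap.range ⊔ (P n).toLinearMap.range := by
      rintro _ ⟨x, rfl⟩
      show P (n + 1) x - P n x ∈ _
      exact Submodule.sub_mem _ (Submodule.mem_sup_left ⟨x, rfl⟩) (Submodule.mem_sup_right ⟨x, rfl⟩)
    exact Submodule.finiteDimensional_of_le hle
  have hex := fun n => exists_dil 𝕜 (V n)
  choose N H R hN hR0 hRN hRR hR9 hRw using hex
  obtain ⟨o1, o2, -, -, o5, o6, o7, o8, o9, o10, -, o12, o13, -, -⟩ :=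
    h1 𝕜 (fun n => ↥(H n))
  refine ⟨fun n => ↥(H n), fun n => inferInstance, fun n => inferInstance,
    fun n => inferInstance, ?_⟩
  refine basis_of_fdd_abs P hP0 hcomp ht hinf V ?_ ?_ ?_ (fun n => ↥(H n)) N R hN hR0 hRN hRR
    hR9 hRw (c0sum 𝕜 (fun n => ↥(H n))) (fun n => sgz 𝕜 (fun n => ↥(H n)) n)
    (fun n => evz 𝕜 (fun n => ↥(H n)) n) (fun n => tauz 𝕜 (fun n => ↥(H n)) n)
    o1 o2 o5 o6 (fun n t => by rw [o7, min_self])
    (fun n t => by
      have := o8 n n t
      rw [if_neg (lt_irrefl _)] at this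
      exact this)
    (fun n a => by
      have := o9 n n a
      rw [if_neg (lt_irrefl _)] at this
      exact this)
    o10 o12 o13
  · intro n x
    exact ⟨x, rfl⟩
  · rintro n _ ⟨x, rfl⟩
    show P (n + 1) (P (n + 1) x - P n x) = P (n + 1) x - P n x
    rw [map_sub, hcomp, hcomp]
    simp
  · rintro n _ ⟨x, rfl⟩
    show P n (P (n + 1) x - P n x) = 0
    rw [map_sub, hcomp, hcomp]
    simp

end Pool.Agent.Lib.MP_355270_an.CZ
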