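import Pool.Agent.Lib.MP_355270_an.CZ.Stm
import Pool.Agent.Lib.MP_355270_an.StepA

open Filter Topology
open scoped ENNReal

namespace Pool.Agent.Lib.MP_355270_an.CZ

universe u

theorem p_zmain (h1 : S_zq.{u}) (h2 : S_zassemble.{u}) : S_zmain.{u} := by
  intro 𝕜 _ G _ _ hG hdense hinf E _ _ _ v hfin hv
  obtain ⟨V, w, K, hV, hmono, hw1, hw2, hw3, hw4⟩ := normalize v hfin hv
  obtain ⟨q, hq1, hq2, hq3⟩ := h1 𝕜 E V w K hV hmono hw1 hw2 hw3 hw4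
  have := hV
  exact h2 𝕜 G hG hdense hinf (fun n => ↥(V n)) E q hq1 hq2 hq3

end Pool.Agent.Lib.MP_355270_an.CZ
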