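import Pool.Agent.Lib.MP_355270_an.CZ.Stm

open Filter Topology
open scoped ENNReal

namespace Pool.Agent.Lib.MP_355270_an.CZ

universe u

section

variable (𝕜 : Type) [RCLike 𝕜] (G : ℕ → Type u) [∀ n, NormedAddCommGroup (G n)]
  [∀ n, NormedSpace 𝕜 (G n)]

theorem zops_ext (s t : c0sum 𝕜 G) (h : ∀ n, evz 𝕜 G n s = evz 𝕜 G n t) : s = t :=
  Subtype.ext (lp.ext (funext fun n => h n))

theorem zops_self (n : ℕ) (a : G n) : evz 𝕜 G n (sgz 𝕜 G n a) = a := by
  show (lp.single ∞ n a : lp G ∞) n = a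
  exact lp.single_apply_self _ _ _

theorem zops_ne (n k : ℕ) (a : G k) (h : n ≠ k) : evz 𝕜 G n (sgz 𝕜 G k a) = 0 := by
  show (lp.single ∞ k a : lp G ∞) n = 0
  exact lp.single_apply_ne _ _ _ (by omega)

theorem zops_ev_le (n : ℕ) (t : c0sum 𝕜 G) : ‖evz 𝕜 G n t‖ ≤ ‖t‖ :=
  lp.norm_apply_le_norm ENNReal.top_ne_zero t.1 n

theorem zops_norm_le (t : c0sum 𝕜 G) (C : ℝ) (hC : 0 ≤ C) (h : ∀ n, ‖evz 𝕜 G n t‖ ≤ C) :
    ‖t‖ ≤ C := by
  show ‖t.1‖ ≤ C
  exact lp.norm_le_of_forall_le hC (fun n => h n)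

theorem zops_sg_le (n : ℕ) (a : G n) : ‖sgz 𝕜 G n a‖ ≤ ‖a‖ := by
  refine zops_norm_le 𝕜 G _ _ (norm_nonneg _) (fun k => ?_)
  by_cases h : k = n
  · subst h
    rw [zops_self]
  · rw [zops_ne 𝕜 G k n a h, norm_zero]
    exact norm_nonneg _

theorem zops_tau_apply (n : ℕ) (t : c0sum 𝕜 G) :
    tauz 𝕜 G n t = ∑ k ∈ Finset.range n, sgz 𝕜 G k (evz 𝕜 G k t) := by
  unfold tauz
  rw [_root_.sum_apply]
  rfl

theorem zops_ev_tau (n k : ℕ) (t : c0sum 𝕜 G) :
    evz 𝕜 G k (tauz 𝕜 G n t) = if k < n then evz 𝕜 G k t else 0 := by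
  rw [zops_tau_apply, map_sum]
  by_cases h : k < n
  · rw [if_pos h, Finset.sum_eq_single k]
    · exact zops_self 𝕜 G k _
    · intro b _ hb
      exact zops_ne 𝕜 G k b _ hb.symm
    · intro hk
      exact absurd (Finset.mem_range.mpr h) hk
  · rw [if_neg h, Finset.sum_eq_zero]
    intro b hb
    refine zops_ne 𝕜 G k b _ ?_
    rintro rfl
    exact h (Finset.mem_range.mp hb)

theorem zops_tau_succ (n : ℕ) (t : c0sum 𝕜 G) :
    tauz 𝕜 G (n + 1) t = tauz 𝕜 G n t + sgz 𝕜 G n (evz 𝕜 G n t) := by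
  rw [zops_tau_apply, zops_tau_apply, Finset.sum_range_succ]

theorem zops_tail (t : c0sum 𝕜 G) : Tendsto (fun n => ‖evz 𝕜 G n t‖) atTop (𝓝 0) := t.2

end

theorem p_zops : S_zops.{u} := by
  intro 𝕜 _ G _ _
  refine ⟨zops_sg_le 𝕜 G, zops_ev_le 𝕜 G, zops_norm_le 𝕜 G, zops_ext 𝕜 G, ?_, ?_, ?_,
    zops_ev_tau 𝕜 G, ?_, zops_self 𝕜 G, zops_ne 𝕜 G, zops_tau_succ 𝕜 G, ?_, zops_tail 𝕜 G, ?_⟩
  · intro n t
    refine zops_norm_le 𝕜 G _ _ (norm_nonneg _) (fun k => ?_)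
    rw [zops_ev_tau]
    split_ifs
    · exact zops_ev_le 𝕜 G k t
    · rw [norm_zero]
      exact norm_nonneg _
  · unfold tauz
    simp
  · intro n m t
    refine zops_ext 𝕜 G _ _ (fun k => ?_)
    rw [zops_ev_tau, zops_ev_tau, zops_ev_tau]
    by_cases h1 : k < n <;> by_cases h2 : k < m <;> simp [h1, h2]
  · intro n k a
    refine zops_ext 𝕜 G _ _ (fun j => ?_)
    rw [zops_ev_tau]
    by_cases h : k < n
    · rw [if_pos h]
      by_cases hj : j < n
      · rw [if_pos hj]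
      · rw [if_neg hj, zops_ne 𝕜 G j k a (by omega)]
    · rw [if_neg h, map_zero]
      by_cases hj : j < n
      · rw [if_pos hj, zops_ne 𝕜 G j k a (by omega)]
      · rw [if_neg hj]
  · intro t
    rw [Metric.tendsto_atTop]
    intro ε hε
    obtain ⟨N, hN⟩ := (Metric.tendsto_atTop.mp (zops_tail 𝕜 G t)) (ε / 2) (by linarith)
    refine ⟨N, fun n hn => ?_⟩
    rw [dist_eq_norm]
    have : ‖tauz 𝕜 G n t - t‖ ≤ ε / 2 := by
      refine zops_norm_le 𝕜 G _ _ (by linarith) (fun k => ?_)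
      rw [map_sub, zops_ev_tau]
      split_ifs with h
      · rw [sub_self, norm_zero]
        linarith
      · rw [zero_sub, norm_neg]
        have h1 := hN k (by omega)
        rw [Real.dist_eq, sub_zero, abs_of_nonneg (norm_nonneg _)] at h1
        exact h1.le
    linarith
  · intro hG n
    induction n with
    | zero =>
      have h0 : tauz 𝕜 G 0 = 0 := by
        unfold tauz
        simp
      rw [h0]
      have : (0 : c0sum 𝕜 G →L[𝕜] c0sum 𝕜 G).toLinearMap.range = ⊥ := by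
        ext x; simp
      rw [this]
      infer_instance
    | succ n ih =>
      have hle : (tauz 𝕜 G (n + 1)).toLinearMap.range ≤
          (tauz 𝕜 G n).toLinearMap.range ⊔ (sgz 𝕜 G n).toLinearMap.range := by
        rintro _ ⟨x, rfl⟩
        show tauz 𝕜 G (n + 1) x ∈ _
        rw [zops_tau_succ]
        exact Submodule.add_mem_sup ⟨x, rfl⟩ ⟨evz 𝕜 G n x, rfl⟩
      exact Submodule.finiteDimensional_of_le hle

end Pool.Agent.Lib.MP_355270_an.CZ
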