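import Pool.Agent.Lib.MP_355270_an.CZ.Stm

open Filter Topology
open scoped ENNReal

namespace Pool.Agent.Lib.MP_355270_an.CZ

universe u

section Zq

variable {𝕜 : Type} [RCLike 𝕜] {E : Type u} [NormedAddCommGroup E] [NormedSpace 𝕜 E]
variable (V : ℕ → Submodule 𝕜 E) (w : ℕ → E →L[𝕜] E) (hw : ∀ n x, w n x ∈ V n)

/-- `w k` as a map to `V k`. -/
noncomputable def zq_W (k : ℕ) : E →L[𝕜] V k := (w k).codRestrict (V k) (hw k)

theorem zq_W_coe (k : ℕ) (x : E) : ((zq_W V w hw k x : V k) : E) = w k x := rfl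

/-- The maps `z`. -/
noncomputable def zq_z (k : ℕ) : (E × c0sum 𝕜 (fun n => ↥(V n))) →L[𝕜] V k :=
  (zq_W V w hw k).comp (ContinuousLinearMap.fst 𝕜 E (c0sum 𝕜 (fun n => ↥(V n)))) +
    (evz 𝕜 (fun n => ↥(V n)) k).comp (ContinuousLinearMap.snd 𝕜 E (c0sum 𝕜 (fun n => ↥(V n))))

theorem zq_z_apply (k : ℕ) (p : E × c0sum 𝕜 (fun n => ↥(V n))) :
    zq_z V w hw k p = zq_W V w hw k p.1 + evz 𝕜 (fun n => ↥(V n)) k p.2 := rfl

/-- The first coordinate of the projection. -/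
noncomputable def zq_v (n : ℕ) : (E × c0sum 𝕜 (fun n => ↥(V n))) →L[𝕜] E :=
  (V n).subtypeL.comp (zq_z V w hw n)

theorem zq_v_apply (n : ℕ) (p : E × c0sum 𝕜 (fun n => ↥(V n))) :
    zq_v V w hw n p = (zq_z V w hw n p : V n) := rfl

/-- The projections. -/
noncomputable def zq_q (n : ℕ) :
    (E × c0sum 𝕜 (fun n => ↥(V n))) →L[𝕜] (E × c0sum 𝕜 (fun n => ↥(V n))) :=
  (zq_v V w hw n).prod (∑ k ∈ Finset.range (n + 1), (sgz 𝕜 (fun n => ↥(V n)) k).comp
    (zq_z V w hw k - (zq_W V w hw k).comp (zq_v V w hw n)))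

theorem zq_q_fst (n : ℕ) (p : E × c0sum 𝕜 (fun n => ↥(V n))) :
    (zq_q V w hw n p).1 = (zq_z V w hw n p : V n) := rfl

theorem zq_q_snd (n : ℕ) (p : E × c0sum 𝕜 (fun n => ↥(V n))) :
    (zq_q V w hw n p).2 = ∑ k ∈ Finset.range (n + 1), sgz 𝕜 (fun n => ↥(V n)) k
      (zq_z V w hw k p - zq_W V w hw k (zq_z V w hw n p : V n)) := by
  show (∑ k ∈ Finset.range (n + 1), (sgz 𝕜 (fun n => ↥(V n)) k).comp
    (zq_z V w hw k - (zq_W V w hw k).comp (zq_v V w hw n))) p = _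
  rw [sum_apply]
  rfl

variable (h1 : S_zops.{u})

include h1

theorem zq_ev (n k : ℕ) (p : E × c0sum 𝕜 (fun n => ↥(V n))) :
    evz 𝕜 (fun n => ↥(V n)) k (zq_q V w hw n p).2 =
      if k ≤ n then zq_z V w hw k p - zq_W V w hw k (zq_z V w hw n p : V n) else 0 := by
  obtain ⟨-, -, -, -, -, -, -, -, -, h10, h11, -, -, -, -⟩ := h1 𝕜 (fun n => ↥(V n))
  rw [zq_q_snd, map_sum]
  split_ifs with h
  · rw [Finset.sum_eq_single k, h10]
    · intro j _ hj
      rw [h11 k j _ (Ne.symm hj)]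
    · intro hk
      exact absurd (Finset.mem_range.mpr (by omega)) hk
  · refine Finset.sum_eq_zero fun j hj => ?_
    rw [Finset.mem_range] at hj
    exact h11 k j _ (by omega)

theorem zq_zq (hmono : Monotone V) (hfix : ∀ n, ∀ y ∈ V n, w (n + 1) y = y) (n k : ℕ)
    (p : E × c0sum 𝕜 (fun n => ↥(V n))) :
    ((zq_z V w hw k (zq_q V w hw n p) : V k) : E) = (zq_z V w hw (min k n) p : V (min k n)) := by
  rw [zq_z_apply, zq_ev V w hw h1, zq_q_fst]
  split_ifs with h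
  · rw [min_eq_left h, add_sub_cancel]
  · rw [add_zero, min_eq_right (by omega), zq_W_coe]
    obtain ⟨l, rfl⟩ : ∃ l, k = l + 1 := ⟨k - 1, by omega⟩
    exact hfix l _ (hmono (by omega : n ≤ l) (zq_z V w hw n p).2)

theorem zq_comp (hmono : Monotone V) (hfix : ∀ n, ∀ y ∈ V n, w (n + 1) y = y) (n m : ℕ)
    (p : E × c0sum 𝕜 (fun n => ↥(V n))) :
    zq_q V w hw n (zq_q V w hw m p) = zq_q V w hw (min n m) p := by
  have hz := zq_zq V w hw h1 hmono hfix
  have hev := zq_ev V w hw h1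
  obtain ⟨-, -, -, h4, -, -, -, -, -, -, -, -, -, -, -⟩ := h1 𝕜 (fun n => ↥(V n))
  refine Prod.ext ?_ ?_
  · rw [zq_q_fst, zq_q_fst, hz]
  · refine h4 _ _ fun k => ?_
    rw [hev, hev]
    by_cases hk : k ≤ n
    · rw [if_pos hk]
      apply Subtype.ext
      by_cases hkm : k ≤ m
      · rw [if_pos (le_min hk hkm)]
        rw [Submodule.coe_sub, Submodule.coe_sub, zq_W_coe, zq_W_coe, hz, hz, min_eq_left hkm]
      · rw [if_neg (by omega)]
        rw [Submodule.coe_sub, zq_W_coe, hz, hz, min_eq_right (by omega : m ≤ k),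
          min_eq_right (by omega : m ≤ n)]
        obtain ⟨l, rfl⟩ : ∃ l, k = l + 1 := ⟨k - 1, by omega⟩
        rw [hfix l _ (hmono (by omega : m ≤ l) (zq_z V w hw m p).2), sub_self]
        rfl
    · rw [if_neg hk, if_neg (by omega)]

theorem zq_finite (hfin : ∀ n, FiniteDimensional 𝕜 (V n)) (n : ℕ) :
    FiniteDimensional 𝕜 (zq_q V w hw n).toLinearMap.range := by
  have hev := zq_ev V w hw h1
  obtain ⟨-, -, -, h4, -, -, -, h8, -, -, -, -, -, -, h15⟩ := h1 𝕜 (fun n => ↥(V n))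
  have hτ := h15 hfin (n + 1)
  have hle : (zq_q V w hw n).toLinearMap.range ≤
      (V n).map (LinearMap.inl 𝕜 E (c0sum 𝕜 (fun n => ↥(V n)))) ⊔
      (tauz 𝕜 (fun n => ↥(V n)) (n + 1)).toLinearMap.range.map
        (LinearMap.inr 𝕜 E (c0sum 𝕜 (fun n => ↥(V n)))) := by
    rintro _ ⟨z, rfl⟩
    have hz : (zq_q V w hw n).toLinearMap z =
        LinearMap.inl 𝕜 E (c0sum 𝕜 (fun n => ↥(V n))) (zq_q V w hw n z).1 +
        LinearMap.inr 𝕜 E (c0sum 𝕜 (fun n => ↥(V n))) (zq_q V w hw n z).2 := by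
      refine Prod.ext ?_ ?_ <;> simp
    rw [hz]
    refine Submodule.add_mem_sup (Submodule.mem_map_of_mem ?_) (Submodule.mem_map_of_mem ?_)
    · rw [zq_q_fst]
      exact (zq_z V w hw n z).2
    · refine ⟨(zq_q V w hw n z).2, ?_⟩
      show tauz 𝕜 (fun n => ↥(V n)) (n + 1) (zq_q V w hw n z).2 = _
      refine h4 _ _ fun k => ?_
      rw [h8, hev]
      by_cases hk : k ≤ n
      · rw [if_pos (by omega)]
      · rw [if_neg (by omega), if_neg hk]
  have := hfin n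
  exact Submodule.finiteDimensional_of_le hle

theorem zq_tendsto {K : ℝ} (hK : ∀ n, ‖w n‖ ≤ K)
    (ht : ∀ x, Tendsto (fun n => w n x) atTop (𝓝 x)) (p : E × c0sum 𝕜 (fun n => ↥(V n))) :
    Tendsto (fun n => zq_q V w hw n p) atTop (𝓝 p) := by
  have hev := zq_ev V w hw h1
  obtain ⟨-, -, h3, -, -, -, -, h8, -, -, -, -, h13, h14, -⟩ := h1 𝕜 (fun n => ↥(V n))
  have hK0 : 0 ≤ K := (norm_nonneg _).trans (hK 0)
  have hy : Tendsto (fun n => ((evz 𝕜 (fun n => ↥(V n)) n p.2 : V n) : E)) atTop (𝓝 0) :=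
    squeeze_zero_norm (fun n => le_of_eq rfl) (h14 p.2)
  have hfst : Tendsto (fun n => (zq_q V w hw n p).1) atTop (𝓝 p.1) := by
    have := (ht p.1).add hy
    rw [add_zero] at this
    exact this
  have hdf : Tendsto (fun n => K * ‖p.1 - (zq_q V w hw n p).1‖) atTop (𝓝 0) := by
    have : Tendsto (fun n => p.1 - (zq_q V w hw n p).1) atTop (𝓝 (p.1 - p.1)) :=
      tendsto_const_nhds.sub hfst
    rw [sub_self] at this
    simpa using this.norm.const_mul K
  have hR : Tendsto (fun n => (zq_q V w hw n p).2 - tauz 𝕜 (fun n => ↥(V n)) (n + 1) p.2) atTop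
      (𝓝 0) := by
    refine squeeze_zero_norm (fun n => ?_) hdf
    refine h3 _ _ (mul_nonneg hK0 (norm_nonneg _)) fun k => ?_
    rw [map_sub, hev, h8]
    by_cases hk : k ≤ n
    · rw [if_pos hk, if_pos (by omega), zq_z_apply, zq_q_fst]
      have e : zq_W V w hw k p.1 + evz 𝕜 (fun n => ↥(V n)) k p.2 -
          zq_W V w hw k (zq_z V w hw n p : V n) - evz 𝕜 (fun n => ↥(V n)) k p.2 =
          zq_W V w hw k (p.1 - (zq_z V w hw n p : V n)) := by
        rw [map_sub]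
        abel
      rw [e]
      show ‖w k (p.1 - (zq_z V w hw n p : V n))‖ ≤ _
      exact (w k).le_of_opNorm_le (hK k) _
    · rw [if_neg hk, if_neg (by omega), sub_self, norm_zero]
      exact mul_nonneg hK0 (norm_nonneg _)
  have hsnd : Tendsto (fun n => (zq_q V w hw n p).2) atTop (𝓝 p.2) := by
    have := hR.add ((h13 p.2).comp (tendsto_add_atTop_nat 1))
    rw [zero_add] at this
    refine this.congr fun n => ?_
    rw [Function.comp_apply, sub_add_cancel]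
  exact hfst.prodMk_nhds hsnd

end Zq

theorem p_zq (h1 : S_zops.{u}) : S_zq.{u} := by
  intro 𝕜 _ E _ _ V w K hfin hmono hw hfix hK ht
  exact ⟨zq_q V w hw, fun n m x => zq_comp V w hw h1 hmono hfix n m x,
    fun n => zq_finite V w hw h1 hfin n, fun x => zq_tendsto V w hw h1 hK ht x⟩

end Pool.Agent.Lib.MP_355270_an.CZ
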